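import Pool.Agent.D0H47.TB.Site
import Pool.Agent.D0H47.TB.Det
import Pool.Agent.D0H47.TB.Sums

/-!
# Tubes at the critical point

Site percolation on `Z^d`, `d ≥ 2`, at and below the critical point `p_c(d)`, and slightly above it.  A tube of
length `l` and width `k` is crossed lengthwise with probability at most `C exp (- l / (C (k + 1) ^ (4 d² + 6 d)))`
(for all `p ≤ p_c + 1 / (C (k + 1) ^ (4 d² + 7 d))`), and at `p_c` with probability at least
`exp (- C (l / k + 1) log k)`: the correlation length of a tube at the critical point is at least `c k / log k` and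
at most polynomial in its width.

As an application there is no infinite cluster at `p_c(d)` in `Z^d` with thin pierced walls: walls of thickness
`n ^ (4 d² + 6 d + 2)` at distance `2 ^ n` from the coordinate hyperplanes, on both sides, in which a proportion of
about `2 ^ (1 - d)` of the area consists of holes of width `n`.  This subgraph of `Z^d` has density one.

The estimate for two boxes of polynomial size (`Pool.Agent.Y990.CB.conP`) and the polynomial lower bound for
connections at the critical point (`Pool.Agent.Y990.CB.s_tau`) are from the starting files.  The regions of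
`NarrowPassages` (helper28) have few passages at each scale; the walls here have many, but they are longer.
-/

set_option autoImplicit false

open MeasureTheory Set Filter

namespace Pool.Agent.Results.MP_e13933_pr.CriticalTubes

noncomputable section

/-- Vertices of `Z^d`. -/
abbrev V (d : ℕ) : Type := Fin d → ℤ

/-- The nearest neighbour graph on the set `S`: two vertices of `S` at Euclidean distance one are
joined. -/
def graphOn {d : ℕ} (S : Set (V d)) : SimpleGraph (V d) where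
  Adj x y := ∑ i, |x i - y i| = 1 ∧ x ∈ S ∧ y ∈ S
  symm := ⟨fun x y ⟨h1, h2, h3⟩ => ⟨by simpa only [abs_sub_comm] using h1, h3, h2⟩⟩
  loopless := ⟨fun x h => by simpa using h.1⟩

/-- The connected component of `x` in the set `S` (empty if `x` is not in `S`). -/
def component {d : ℕ} (S : Set (V d)) (x : V d) : Set (V d) :=
  {y | x ∈ S ∧ (graphOn S).Reachable x y}

/-- The open vertices of a configuration.  The open clusters inside a region `D` are the
components of `opn ω ∩ D`. -/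
def opn {d : ℕ} (ω : V d → Bool) : Set (V d) := {x | ω x = true}

/-- Site percolation with parameter `p`: all vertices are open with probability `p`,
independently. -/
def P (d : ℕ) (p : unitInterval) : Measure (V d → Bool) :=
  Measure.infinitePi (fun _ : V d =>
    ENNReal.ofReal (p : ℝ) • Measure.dirac true + ENNReal.ofReal (1 - (p : ℝ)) • Measure.dirac false)

/-- The percolation probability `θ_d(p)`. -/
def theta (d : ℕ) (p : unitInterval) : ℝ := (P d p).real {ω | (component (opn ω) 0).Infinite}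

/-- The critical point `p_c(d)`, the supremum of the parameters with `θ_d(p) = 0`. -/
def pc (d : ℕ) : unitInterval :=
  ⟨sSup {t : ℝ | ∃ q : unitInterval, (q : ℝ) = t ∧ theta d q = 0}, by
    constructor
    · apply Real.sSup_nonneg
      rintro x ⟨q, rfl, _⟩
      exact q.2.1
    · apply Real.sSup_le
      · rintro x ⟨q, rfl, _⟩
        exact q.2.2
      · exact zero_le_one⟩

/-- A tube: starting point, direction, length and width. -/
structure Tube (d : ℕ) where
  z : V d
  i : Fin d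
  l : ℕ
  k : ℕ

/-- The vertices of the tube: `z i ≤ x i ≤ z i + l` and `|x j - z j| ≤ k` for `j ≠ i`. -/
def Tube.verts {d : ℕ} (T : Tube d) : Set (V d) :=
  {x | T.z T.i ≤ x T.i ∧ x T.i ≤ T.z T.i + T.l ∧ ∀ j, j ≠ T.i → |x j - T.z j| ≤ T.k}

/-- The set `S` crosses the tube lengthwise: a connected component of its part inside the tube
meets both ends of the tube. -/
def Tube.CrossedBy {d : ℕ} (T : Tube d) (S : Set (V d)) : Prop :=
  ∃ x y, x T.i = T.z T.i ∧ y T.i = T.z T.i + T.l ∧ y ∈ component (S ∩ T.verts) x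

/-- Almost surely there is no infinite open cluster inside the region `D`. -/
def NoInfiniteCluster (d : ℕ) (p : unitInterval) (D : Set (V d)) : Prop :=
  ∀ᵐ ω ∂(P d p), ∀ x, (component (opn ω ∩ D) x).Finite

/-- Infinite connected sets. -/
def InfiniteConnected {d : ℕ} (S : Set (V d)) : Prop :=
  S.Infinite ∧ ∀ x ∈ S, ∀ y ∈ S, (graphOn S).Reachable x y

/-- `Z^d` with pierced walls: if the `i`-th coordinate of `x` is, up to sign, between `2 ^ n` and
`2 ^ n + n ^ (4 d² + 6 d + 2)`, then all the other coordinates have distance at most `n` from the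
multiples of `4 n`. -/
def walls (d : ℕ) : Set (V d) :=
  {x | ∀ n : ℕ, 1 ≤ n → ∀ i : Fin d, (2 : ℤ) ^ n ≤ |x i| →
    |x i| ≤ 2 ^ n + (n : ℤ) ^ (4 * d ^ 2 + 6 * d + 2) → ∀ j, j ≠ i → ∃ m : ℤ, |x j - 4 * n * m| ≤ n}

/-! ### Comparison with the modules -/

open Pool.Agent.D0H47.TB

lemma graph_eq {d : ℕ} (S : Set (V d)) : graphOn S = GT S := by
  ext x y
  rw [GT_adj]
  exact Iff.rfl

lemma comp_eq {d : ℕ} {S : Set (V d)} {x : V d} (hx : x ∈ S) :
    component S x = {y | (GT S).Reachable x y} := by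
  ext y
  show (x ∈ S ∧ (graphOn S).Reachable x y) ↔ _
  rw [graph_eq]
  exact ⟨fun h => h.2, fun h => ⟨hx, h⟩⟩

open Pool.Agent.Y990.CB in
lemma G_univ {d : ℕ} (ω : V d → Bool) : G (siteM d) ω univ = graphOn (opn ω) := by
  rw [graph_eq, G_eq, inter_univ]
  rfl

open Pool.Agent.Y990.CB in
lemma infinite_iff {d : ℕ} (ω : V d → Bool) (x : V d) :
    (component (opn ω) x).Infinite ↔ ω ∈ Perc (siteM d) x := by
  constructor
  · intro h
    refine Set.Infinite.mono ?_ h
    rintro y ⟨_, hy⟩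
    show (G (siteM d) ω univ).Reachable x y
    rw [G_univ]
    exact hy
  · intro h
    have hx : x ∈ opn ω := by
      obtain ⟨y, hy, hyx⟩ := Set.Infinite.exists_notMem_finset h {x}
      have hyx' : y ≠ x := by simpa using hyx
      have hr : (G (siteM d) ω univ).Reachable x y := hy
      rw [G_univ] at hr
      obtain ⟨q⟩ := hr
      cases q with
      | nil => exact absurd rfl hyx'
      | cons hadj _ => exact hadj.2.1
    refine Set.Infinite.mono ?_ h
    intro y hy
    refine ⟨hx, ?_⟩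
    have hr : (G (siteM d) ω univ).Reachable x y := hy
    rwa [G_univ] at hr

open Pool.Agent.Y990.CB in
lemma P_eq (d : ℕ) (p : unitInterval) : P d p = mu (siteM d) p := rfl

open Pool.Agent.Y990.CB in
lemma theta_eq (d : ℕ) (p : unitInterval) : theta d p = th (siteM d) p := by
  unfold theta th
  rw [P_eq]
  congr 1
  ext ω
  exact infinite_iff ω 0

open Pool.Agent.Y990.CB in
lemma pc_eq (d : ℕ) : pc d = Pool.Agent.Y990.CB.pc (siteM d) := by
  apply Subtype.ext
  show sSup {t : ℝ | ∃ q : unitInterval, (q : ℝ) = t ∧ theta d q = 0} =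
    sSup {x : ℝ | ∃ q : unitInterval, (q : ℝ) = x ∧ th (siteM d) q = 0}
  simp only [theta_eq]

instance (d : ℕ) (p : unitInterval) : IsProbabilityMeasure (P d p) :=
  inferInstanceAs (IsProbabilityMeasure (Pool.Agent.Y990.CB.mu (Pool.Agent.Y990.CB.siteM d) p))

lemma crossed_iff {d : ℕ} (T : Tube d) (S : Set (V d)) :
    T.CrossedBy S ↔ Cb S T.z T.i T.l T.k := by
  constructor
  · rintro ⟨x, y, h1, h2, h3, h4⟩
    rw [graph_eq] at h4
    exact ⟨x, y, h1, h2, h3, h4⟩
  · rintro ⟨x, y, h1, h2, h3, h4⟩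
    refine ⟨x, y, h1, h2, h3, ?_⟩
    rw [graph_eq]
    exact h4

open Pool.Agent.Y990.CB in
lemma crossed_sub {d : ℕ} (T : Tube d) : {ω : V d → Bool | T.CrossedBy (opn ω)} ⊆
    Cr (siteM d) (Cy T.z T.i T.k) T.i (T.z T.i) (T.z T.i + T.l) :=
  fun ω h => Cb_open ((crossed_iff T (opn ω)).1 h)

open Pool.Agent.Y990.CB in
lemma crossed_sup {d : ℕ} (T : Tube d) (hl : 1 ≤ T.l) :
    Cr (siteM d) (Cy T.z T.i T.k) T.i (T.z T.i) (T.z T.i + T.l) ⊆
      {ω : V d → Bool | T.CrossedBy (opn ω)} := by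
  rintro ω ⟨x, ⟨h1, h2⟩, y, ⟨h3, h4⟩, h5⟩
  have h2' : x T.i = T.z T.i := h2
  have h4' : y T.i = T.z T.i + T.l := h4
  have hV : Cy T.z T.i T.k ∩ Sl T.i (T.z T.i) (T.z T.i + T.l) = T.verts := by
    ext u
    exact ⟨fun h => ⟨h.2.1, h.2.2, h.1⟩, fun h => ⟨h.2.2, h.1, h.2.1⟩⟩
  rw [G_eq, hV] at h5
  have hl' : (1 : ℤ) ≤ T.l := by exact_mod_cast hl
  have hxy : x ≠ y := by
    intro h
    rw [h] at h2'
    linarith
  refine ⟨x, y, h2', h4', (mem_of_reach h5 hxy).1, ?_⟩
  rw [graph_eq]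
  exact h5

/-- Borel-Cantelli lemma for the tubes. -/
lemma bc {d : ℕ} {p : unitInterval} {C : ℝ} (hC : 0 ≤ C) {e : ℕ}
    (h1 : ∀ T : Tube d, (P d p).real {ω | T.CrossedBy (opn ω)} ≤
      C * Real.exp (-((T.l : ℝ) / (C * ((T.k : ℝ) + 1) ^ e))))
    (F : ℕ → Finset (Tube d))
    (hF : Summable (fun n => ∑ T ∈ F n, Real.exp (-((T.l : ℝ) / (C * ((T.k : ℝ) + 1) ^ e))))) :
    ∀ᵐ ω ∂(P d p), ∀ᶠ n in atTop, ∀ T ∈ F n, ¬ T.CrossedBy (opn ω) := by
  have h2 : ∀ n, P d p {ω | ∃ T ∈ F n, T.CrossedBy (opn ω)} ≤ ENNReal.ofReal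
      (C * ∑ T ∈ F n, Real.exp (-((T.l : ℝ) / (C * ((T.k : ℝ) + 1) ^ e)))) := by
    intro n
    have e1 : {ω : V d → Bool | ∃ T ∈ F n, T.CrossedBy (opn ω)} =
        ⋃ T ∈ F n, {ω | T.CrossedBy (opn ω)} := by
      ext ω
      simp
    rw [e1, Finset.mul_sum, ENNReal.ofReal_sum_of_nonneg (fun T _ => by positivity)]
    refine (measure_biUnion_finset_le _ _).trans (Finset.sum_le_sum fun T _ => ?_)
    rw [← ENNReal.ofReal_toReal (measure_ne_top (P d p) {ω | T.CrossedBy (opn ω)})]
    exact ENNReal.ofReal_le_ofReal (h1 T)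
  have h3 : ∑' n, P d p {ω | ∃ T ∈ F n, T.CrossedBy (opn ω)} ≠ ⊤ :=
    ne_top_of_le_ne_top (hF.mul_left C).tsum_ofReal_ne_top (ENNReal.tsum_le_tsum h2)
  filter_upwards [ae_eventually_notMem h3] with ω hω
  filter_upwards [hω] with n hn T hT hc
  exact hn ⟨T, hT, hc⟩

/-- The criterion. -/
lemma criterion {d : ℕ} {p : unitInterval} {C : ℝ} (hC : 0 ≤ C) {e : ℕ}
    (h1 : ∀ T : Tube d, (P d p).real {ω | T.CrossedBy (opn ω)} ≤
      C * Real.exp (-((T.l : ℝ) / (C * ((T.k : ℝ) + 1) ^ e))))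
    (F : ℕ → Finset (Tube d))
    (hF : Summable (fun n => ∑ T ∈ F n, Real.exp (-((T.l : ℝ) / (C * ((T.k : ℝ) + 1) ^ e)))))
    (D : Set (V d)) (hD : ∀ S, S ⊆ D → InfiniteConnected S →
      ∃ᶠ n in atTop, ∃ T ∈ F n, T.CrossedBy S) : NoInfiniteCluster d p D := by
  unfold NoInfiniteCluster
  filter_upwards [bc hC h1 F hF] with ω hω x
  by_contra hinf
  have hinf' : (component (opn ω ∩ D) x).Infinite := hinf
  obtain ⟨y0, hx, _⟩ := hinf'.nonempty
  set S : Set (V d) := component (opn ω ∩ D) x with hS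
  have hS2 : S = {y | (GT (opn ω ∩ D)).Reachable x y} := comp_eq hx
  have hSsub : S ⊆ opn ω ∩ D := by
    rintro y ⟨_, hy⟩
    rw [graph_eq] at hy
    by_cases hxy : x = y
    · exact hxy ▸ hx
    · exact (Pool.Agent.Y990.CB.mem_of_reach hy hxy).2
  have hcon : InfiniteConnected S := by
    refine ⟨hinf', fun y hy z hz => ?_⟩
    rw [graph_eq]
    have g1 := reach_comp (S := opn ω ∩ D) hx (show (GT (opn ω ∩ D)).Reachable x y by
      rw [hS2] at hy; exact hy)
    have g2 := reach_comp (S := opn ω ∩ D) hx (show (GT (opn ω ∩ D)).Reachable x z by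
      rw [hS2] at hz; exact hz)
    rw [← hS2] at g1 g2
    exact g1.symm.trans g2
  have h4 := hD S (fun y hy => (hSsub hy).2) hcon
  obtain ⟨n, ⟨T, hT, hc⟩, hn⟩ := (h4.and_eventually hω).exists
  apply hn T hT
  rw [crossed_iff] at hc ⊢
  exact Cb_mono (fun y hy => (hSsub hy).1) hc

/-- Tubes through the walls. -/
def Tw {d : ℕ} (n : ℕ) (q : (Fin d × Bool) × V d) : Tube d :=
  ⟨Function.update (fun j => 4 * (n : ℤ) * q.2 j) q.1.1
    (if q.1.2 then 2 ^ n else -(2 ^ n + (n : ℤ) ^ (4 * d ^ 2 + 6 * d + 2))), q.1.1,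
    n ^ (4 * d ^ 2 + 6 * d + 2), n⟩

open scoped Classical in
/-- The relevant tubes. -/
def Fw (d n : ℕ) : Finset (Tube d) :=
  ((Finset.univ : Finset (Fin d × Bool)) ×ˢ Fintype.piFinset (fun _ : Fin d =>
    Finset.Icc (-(2 ^ n + (n : ℤ) ^ (4 * d ^ 2 + 6 * d + 2)))
      (2 ^ n + (n : ℤ) ^ (4 * d ^ 2 + 6 * d + 2)))).image (Tw n)

lemma Fw_card (d n : ℕ) : ((Fw d n).card : ℝ) ≤
    (2 * d) * (2 * (2 ^ n + (n : ℝ) ^ (4 * d ^ 2 + 6 * d + 2)) + 1) ^ d := by
  classical
  have h1 : (Fw d n).card ≤ (2 * d) *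
      (2 * (2 ^ n + n ^ (4 * d ^ 2 + 6 * d + 2)) + 1) ^ d := by
    refine Finset.card_image_le.trans (le_of_eq ?_)
    rw [Finset.card_product, Finset.card_univ, Fintype.card_prod, Fintype.card_fin,
      Fintype.card_bool, Fintype.card_piFinset, Finset.prod_const, Finset.card_univ,
      Fintype.card_fin, Int.card_Icc]
    congr 1
    · ring
    · congr 1
      have e1 : (2 : ℤ) ^ n + (n : ℤ) ^ (4 * d ^ 2 + 6 * d + 2) + 1 -
          -(2 ^ n + (n : ℤ) ^ (4 * d ^ 2 + 6 * d + 2)) =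
          ((2 * (2 ^ n + n ^ (4 * d ^ 2 + 6 * d + 2)) + 1 : ℕ) : ℤ) := by
        push_cast
        ring
      rw [e1, Int.toNat_natCast]
  exact_mod_cast h1

lemma walls_none {d : ℕ} {p : unitInterval} {C : ℝ} (hC : 1 ≤ C)
    (h1 : ∀ T : Tube d, (P d p).real {ω | T.CrossedBy (opn ω)} ≤
      C * Real.exp (-((T.l : ℝ) / (C * ((T.k : ℝ) + 1) ^ (4 * d ^ 2 + 6 * d))))) :
    NoInfiniteCluster d p (walls d) := by
  classical
  have hF : Summable (fun n => ∑ T ∈ Fw d n,
      Real.exp (-((T.l : ℝ) / (C * ((T.k : ℝ) + 1) ^ (4 * d ^ 2 + 6 * d))))) := by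
    refine Summable.of_nonneg_of_le (fun n => Finset.sum_nonneg fun T _ => Real.exp_nonneg _) ?_
      (wall_sum d (4 * d ^ 2 + 6 * d) C (2 * d) (by linarith) (by positivity))
    intro n
    have h2 : ∀ T ∈ Fw d n,
        Real.exp (-((T.l : ℝ) / (C * ((T.k : ℝ) + 1) ^ (4 * d ^ 2 + 6 * d)))) =
          Real.exp (-((n : ℝ) ^ (4 * d ^ 2 + 6 * d + 2) /
            (C * ((n : ℝ) + 1) ^ (4 * d ^ 2 + 6 * d)))) := by
      intro T hT
      unfold Fw at hT
      rw [Finset.mem_image] at hT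
      obtain ⟨q, _, rfl⟩ := hT
      show Real.exp (-((((n ^ (4 * d ^ 2 + 6 * d + 2) : ℕ)) : ℝ) / _)) = _
      rw [Nat.cast_pow]
      rfl
    rw [Finset.sum_congr rfl h2, Finset.sum_const, nsmul_eq_mul]
    exact mul_le_mul_of_nonneg_right (Fw_card d n) (Real.exp_nonneg _)
  refine criterion (by linarith) h1 _ hF _ ?_
  intro S hS ⟨hinf, hcon⟩
  apply Eventually.frequently
  obtain ⟨n0, h⟩ := wall_inf (e := 4 * d ^ 2 + 6 * d + 2) (S := S) hS hinf
    (fun x hx y hy => by rw [← graph_eq]; exact hcon x hx y hy)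
  filter_upwards [eventually_ge_atTop n0] with n hn
  obtain ⟨i, m, hm, h⟩ := h n hn
  have hmem : ∀ s, Tw n ((i, s), m) ∈ Fw d n := by
    intro s
    unfold Fw
    apply Finset.mem_image_of_mem
    rw [Finset.mem_product]
    refine ⟨Finset.mem_univ _, ?_⟩
    rw [Fintype.mem_piFinset]
    intro j
    rw [Finset.mem_Icc]
    exact abs_le.1 (hm j)
  rcases h with h | h
  · exact ⟨Tw n ((i, true), m), hmem true, (crossed_iff _ _).2 h⟩
  · exact ⟨Tw n ((i, false), m), hmem false, (crossed_iff _ _).2 h⟩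

/-- **Tubes at the critical point.**  For every `d ≥ 2` there is `C ≥ 1` such that:

1. every tube of length `l` and width `k` is crossed lengthwise by open vertices with
   `P_p`-probability at most `C exp (- l / (C (k + 1) ^ (4 d² + 6 d)))`, for all
   `p ≤ p_c(d) + 1 / (C (k + 1) ^ (4 d² + 7 d))`;
2. for `p = p_c(d)`, `k ≥ 4` and `l ≥ 1` this probability is at least `exp (- C (l / k + 1) log k)`;
3. consequently for `p ≤ p_c(d)` there is almost surely no infinite open cluster inside the region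
   `walls d` (`Z^d` with thin walls at all powers of two, with a proportion of about `2 ^ (1 - d)` of
   holes). -/
theorem result (d : ℕ) (hd : 2 ≤ d) : ∃ C : ℝ, 1 ≤ C ∧
    (∀ (T : Tube d) (p : unitInterval),
      (p : ℝ) ≤ pc d + 1 / (C * ((T.k : ℝ) + 1) ^ (4 * d ^ 2 + 7 * d)) →
      (P d p).real {ω | T.CrossedBy (opn ω)} ≤
        C * Real.exp (-((T.l : ℝ) / (C * ((T.k : ℝ) + 1) ^ (4 * d ^ 2 + 6 * d))))) ∧
    (∀ T : Tube d, 4 ≤ T.k → 1 ≤ T.l → Real.exp (-(C * ((T.l : ℝ) / T.k + 1) * Real.log T.k)) ≤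
      (P d (pc d)).real {ω | T.CrossedBy (opn ω)}) ∧
    (∀ p : unitInterval, p ≤ pc d → NoInfiniteCluster d p (walls d)) := by
  obtain ⟨C1, hC1, up⟩ := site_up hd
  obtain ⟨C2, hC2, low⟩ := site_low (d := d) (by omega)
  set C : ℝ := max C1 C2 with hC
  have hCa : C1 ≤ C := le_max_left _ _
  have hCb : C2 ≤ C := le_max_right _ _
  have hC1' : 1 ≤ C := hC1.trans hCa
  have U : ∀ (T : Tube d) (p : unitInterval),
      (p : ℝ) ≤ pc d + 1 / (C * ((T.k : ℝ) + 1) ^ (4 * d ^ 2 + 7 * d)) →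
      (P d p).real {ω | T.CrossedBy (opn ω)} ≤
        C * Real.exp (-((T.l : ℝ) / (C * ((T.k : ℝ) + 1) ^ (4 * d ^ 2 + 6 * d)))) := by
    intro T p hp
    have hp' : (p : ℝ) ≤ Pool.Agent.Y990.CB.pc (Pool.Agent.Y990.CB.siteM d) +
        1 / (C1 * ((T.k : ℝ) + 1) ^ (4 * d ^ 2 + 7 * d)) := by
      rw [← pc_eq]
      refine hp.trans (add_le_add le_rfl ?_)
      apply one_div_le_one_div_of_le (by positivity)
      exact mul_le_mul_of_nonneg_right hCa (by positivity)
    have h1 := up p T.z T.i (T.z T.i) T.l T.k hp'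
    have h2 : (P d p).real {ω | T.CrossedBy (opn ω)} ≤
        C1 * Real.exp (-((T.l : ℝ) / (C1 * ((T.k : ℝ) + 1) ^ (4 * d ^ 2 + 6 * d)))) := by
      refine le_trans ?_ h1
      rw [P_eq]
      exact measureReal_mono (crossed_sub T) (measure_ne_top _ _)
    refine h2.trans ?_
    apply mul_le_mul hCa _ (Real.exp_nonneg _) (by linarith)
    apply Real.exp_le_exp.2
    apply neg_le_neg
    apply div_le_div_of_nonneg_left (Nat.cast_nonneg _) (by positivity)
    exact mul_le_mul_of_nonneg_right hCa (by positivity)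
  refine ⟨C, hC1', U, ?_, ?_⟩
  · intro T hk hl
    have h1 := low T.z T.i (T.z T.i) T.l T.k hk
    rw [← pc_eq, ← P_eq] at h1
    have hlog : 0 ≤ Real.log T.k := Real.log_natCast_nonneg _
    have h2 : Real.exp (-(C * ((T.l : ℝ) / T.k + 1) * Real.log T.k)) ≤
        Real.exp (-(C2 * ((T.l : ℝ) / T.k + 1) * Real.log T.k)) := by
      apply Real.exp_le_exp.2
      apply neg_le_neg
      apply mul_le_mul_of_nonneg_right _ hlog
      exact mul_le_mul_of_nonneg_right hCb (by positivity)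
    exact (h2.trans h1).trans (measureReal_mono (crossed_sup T hl) (measure_ne_top _ _))
  · intro p hp
    refine walls_none hC1' fun T => U T p ?_
    have h1 : (p : ℝ) ≤ pc d := hp
    have h2 : 0 ≤ 1 / (C * ((T.k : ℝ) + 1) ^ (4 * d ^ 2 + 7 * d)) := by positivity
    linarith

end

end Pool.Agent.Results.MP_e13933_pr.CriticalTubes
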