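import Pool.Agent.D0H24.Perc.Site

set_option autoImplicit false

open MeasureTheory Set Filter
open scoped Topology

/-!
Site percolation on `Z^d`, `d ≥ 3`, at and slightly above the critical point: the cluster of the
origin is finite and reaches distance `L` with probability at least
`c (L + 1) ^ (-A) exp (- C L (p - p_c) ^ a)`.  Hence the correlation length of the finite clusters
diverges at least as fast as a power of `1 / (p - p_c)` as `p` decreases to `p_c`, whether or not
there is an infinite cluster at `p_c`.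
-/

namespace Pool.Agent.Results.MP_e13933_pr.FiniteClustersAbovePc

open Pool.Agent.D0H24.Site

noncomputable section

/-- The cluster of the origin is finite and meets the boundary of the box of radius `L`. -/
def finiteReach (d L : ℕ) : Set (V d → Bool) :=
  {ω | (cluster ω univ 0).Finite ∧ (cluster ω univ 0 ∩ sphere d L).Nonempty}

/-- A lower bound of the form `c (L + 1) ^ (-A) exp (- x L)` excludes an upper bound
`K exp (- L / ξ)` with `x ξ < 1`. -/
lemma rate {A : ℕ} {c x K ξ : ℝ} (hc : 0 < c) (hξ : 0 < ξ)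
    (h : ∀ L : ℕ, 1 ≤ L → c / ((L : ℝ) + 1) ^ A * Real.exp (-(x * L)) ≤ K * Real.exp (-(L / ξ))) :
    1 ≤ x * ξ := by
  by_contra hlt
  push Not at hlt
  set s : ℝ := 1 / ξ - x with hs
  have hs0 : 0 < s := by
    rw [hs, sub_pos, lt_div_iff₀ hξ]
    exact hlt
  have hK : ∀ L : ℕ, 1 ≤ L → c ≤ K * (((L : ℝ) + 1) ^ A * Real.exp (-(s * L))) := by
    intro L hL
    have h1 := h L hL
    have e1 : Real.exp (-((L : ℝ) / ξ)) = Real.exp (-(s * L)) * Real.exp (-(x * L)) := by
      rw [← Real.exp_add]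
      congr 1
      rw [hs]
      ring
    rw [e1] at h1
    have h2 : 0 < Real.exp (-(x * L)) := Real.exp_pos _
    have h3 : 0 < ((L : ℝ) + 1) ^ A := by positivity
    have h4 : c / ((L : ℝ) + 1) ^ A ≤ K * Real.exp (-(s * L)) := by
      refine le_of_mul_le_mul_right ?_ h2
      calc c / ((L : ℝ) + 1) ^ A * Real.exp (-(x * L)) ≤
          K * (Real.exp (-(s * L)) * Real.exp (-(x * L))) := h1
        _ = K * Real.exp (-(s * L)) * Real.exp (-(x * L)) := by ring
    rw [div_le_iff₀ h3] at h4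
    calc c ≤ K * Real.exp (-(s * L)) * ((L : ℝ) + 1) ^ A := h4
      _ = _ := by ring
  have ht : Tendsto (fun L : ℕ => K * (((L : ℝ) + 1) ^ A * Real.exp (-(s * L)))) atTop (𝓝 0) := by
    have h1 := Real.tendsto_pow_mul_exp_neg_atTop_nhds_zero A
    have h2 : Tendsto (fun L : ℕ => s * ((L : ℝ) + 1)) atTop atTop := by
      apply Tendsto.const_mul_atTop hs0
      exact tendsto_atTop_add_const_right _ _ tendsto_natCast_atTop_atTop
    have h3 := (h1.comp h2).const_mul (K * (Real.exp s / s ^ A))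
    rw [mul_zero] at h3
    refine h3.congr fun L => ?_
    simp only [Function.comp_apply]
    rw [mul_pow]
    have e2 : Real.exp (-(s * ((L : ℝ) + 1))) = Real.exp (-(s * L)) / Real.exp s := by
      rw [← Real.exp_sub]
      congr 1
      ring
    rw [e2]
    have h5 : Real.exp s ≠ 0 := (Real.exp_pos s).ne'
    have h6 : s ^ A ≠ 0 := pow_ne_zero _ hs0.ne'
    field_simp
  have h5 : c ≤ 0 := ge_of_tendsto ht (eventually_atTop.2 ⟨1, hK⟩)
  linarith

/-- **Finite clusters slightly above the critical point.**  For every `d ≥ 3` there are `A`, `a > 0`,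
`c > 0`, `C` and `δ > 0` such that for all `p` in `[p_c, p_c + δ]`:

* for all `L ≥ 1` the `P_p`-probability that the cluster of the origin is finite and reaches the
  boundary of the box of radius `L` is at least `c (L + 1) ^ (-A) exp (- C L (p - p_c) ^ a)`;
* hence, if this probability is at most `K exp (- L / ξ)` for all `L ≥ 1` and some `K`, then the
  correlation length satisfies `C ξ ≥ (p - p_c) ^ (-a)`, in the form `1 ≤ C ξ (p - p_c) ^ a` (in
  particular there is no such `ξ` for `p = p_c`). -/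
theorem result (d : ℕ) (hd : 3 ≤ d) : ∃ (A : ℕ) (a c C δ : ℝ), 0 < a ∧ 0 < c ∧ 0 < C ∧ 0 < δ ∧
    ∀ p : unitInterval, pc d ≤ p → (p : ℝ) - pc d ≤ δ →
      (∀ L : ℕ, 1 ≤ L →
        c / ((L : ℝ) + 1) ^ A * Real.exp (-(C * L * ((p : ℝ) - pc d) ^ a)) ≤
          (P d p).real (finiteReach d L)) ∧
      ∀ ξ K : ℝ, 0 < ξ →
        (∀ L : ℕ, 1 ≤ L → (P d p).real (finiteReach d L) ≤ K * Real.exp (-(L / ξ))) →
        1 ≤ C * ξ * ((p : ℝ) - pc d) ^ a := by
  have hN : Pool.Agent.Y990.CB.Nd (Pool.Agent.Y990.CB.siteM d) := Pool.Agent.Y990.CB.nd_site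
  have hQ : Pool.Agent.Y990.CB.Qm (Pool.Agent.Y990.CB.siteM d) := Pool.Agent.Y448.CB2.qm_site d
  obtain ⟨A, a, c, C, δ, ha, hc, hC, hδ, h⟩ :=
    Pool.Agent.D0H24.Perc.trunc hd (Pool.Agent.Y990.CB.siteM d) hN hQ
  refine ⟨A, a, c, C, δ, ha, hc, hC, hδ, fun p hp hpδ => ?_⟩
  have h1 : ∀ L : ℕ, 1 ≤ L →
        c / ((L : ℝ) + 1) ^ A * Real.exp (-(C * L * ((p : ℝ) - pc d) ^ a)) ≤
          (P d p).real (finiteReach d L) := by
    intro L hL
    rw [pc_eq] at hp hpδ ⊢
    refine (h p hp hpδ L hL).trans ?_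
    rw [P_eq]
    refine measureReal_mono ?_ (measure_ne_top _ _)
    rintro ω ⟨hfin, x, hx, hxc⟩
    exact tail_of hL ω x hx hfin hxc
  refine ⟨h1, fun ξ K hξ hK => ?_⟩
  have h2 := rate (A := A) (x := C * ((p : ℝ) - pc d) ^ a) hc hξ (K := K) (fun L hL => by
    refine le_trans ?_ (hK L hL)
    refine le_trans (le_of_eq ?_) (h1 L hL)
    congr 2
    ring)
  linarith

end

end Pool.Agent.Results.MP_e13933_pr.FiniteClustersAbovePc
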