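import Pool.Agent.D0H28.Neck.Seq
import Pool.Agent.Y448.CB2.Ctc

set_option autoImplicit false

open MeasureTheory Set Filter
open scoped Topology

/-!
Site percolation on `Z^d`, `d ≥ 2`, at and below the critical point of `Z^d`, restricted to regions
with infinitely many narrow passages: there is no infinite open cluster.
-/

namespace Pool.Agent.Results.MP_e13933_pr.NarrowPassages

noncomputable section

/-- Vertices of `Z^d`. -/
abbrev V (d : ℕ) : Type := Fin d → ℤ

/-- The box of radius `N` around `z`; it has `(2 * N + 1) ^ d` vertices. -/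
def box {d : ℕ} (z : V d) (N : ℕ) : Set (V d) := {x | ∀ i, |x i - z i| ≤ N}

/-- The lattice graph on the region `S`: two vertices of `S` at Euclidean distance one are joined. -/
def lattice {d : ℕ} (S : Set (V d)) : SimpleGraph (V d) where
  Adj x y := ∑ i, |x i - y i| = 1 ∧ x ∈ S ∧ y ∈ S
  symm := ⟨fun x y ⟨h1, h2, h3⟩ => ⟨by simpa only [abs_sub_comm] using h1, h3, h2⟩⟩
  loopless := ⟨fun x h => by simpa using h.1⟩

/-- The open subgraph inside the region `S`: the lattice graph on the vertices of `S` which are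
open (`ω x = true`). -/
def openGraph {d : ℕ} (ω : V d → Bool) (S : Set (V d)) : SimpleGraph (V d) :=
  lattice {x | x ∈ S ∧ ω x = true}

/-- The open cluster of `x` inside the region `S` (empty if `x` is closed or not in `S`). -/
def cluster {d : ℕ} (ω : V d → Bool) (S : Set (V d)) (x : V d) : Set (V d) :=
  {y | (ω x = true ∧ x ∈ S) ∧ (openGraph ω S).Reachable x y}

/-- Site percolation with parameter `p`: all vertices are open with probability `p`,
independently. -/
def P (d : ℕ) (p : unitInterval) : Measure (V d → Bool) :=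
  Measure.infinitePi (fun _ : V d =>
    ENNReal.ofReal (p : ℝ) • Measure.dirac true + ENNReal.ofReal (1 - (p : ℝ)) • Measure.dirac false)

/-- The percolation probability `θ_d(p)`. -/
def theta (d : ℕ) (p : unitInterval) : ℝ := (P d p).real {ω | (cluster ω univ 0).Infinite}

/-- The critical point `p_c(d)` of `Z^d`, the supremum of the parameters with `θ_d(p) = 0`. -/
def pc (d : ℕ) : unitInterval :=
  ⟨sSup {t : ℝ | ∃ q : unitInterval, (q : ℝ) = t ∧ theta d q = 0}, by
    constructor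
    · apply Real.sSup_nonneg
      rintro x ⟨q, rfl, _⟩
      exact q.2.1
    · apply Real.sSup_le
      · rintro x ⟨q, rfl, _⟩
        exact q.2.2
      · exact zero_le_one⟩

/-- The region `S` has a narrow passage at the scale `n`: there are `m` boxes of radius `k` such
that every lattice path in `S` from the box of radius `n` around `0` to the complement of the box
of radius `R n` meets one of the `m` boxes. -/
def Narrow {d : ℕ} (S : Set (V d)) (R m k n : ℕ) : Prop :=
  ∃ x : Fin m → V d, ∀ u ∈ box (0 : V d) n, ∀ v ∉ box (0 : V d) (R * n),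
    ¬ (lattice (S \ ⋃ i, box (x i) k)).Reachable u v

/-! ### Comparison with the model of the modules -/

lemma nd_mem {d : ℕ} {ω : V d → Bool} {x y : V d} :
    (∀ c ∈ (Pool.Agent.Y990.CB.siteM d).nd x y, ω c = true) ↔ ω x = true ∧ ω y = true := by
  show (∀ c : V d, c ∈ ({x, y} : Finset (V d)) → ω c = true) ↔ _
  simp only [Finset.mem_insert, Finset.mem_singleton, forall_eq_or_imp, forall_eq]

open Pool.Agent.Y990.CB in
lemma adj_iff {d : ℕ} (ω : V d → Bool) (S : Set (V d)) (x y : V d) :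
    (openGraph ω S).Adj x y ↔ (G (siteM d) ω S).Adj x y := by
  show (∑ i, |x i - y i| = 1 ∧ (x ∈ S ∧ ω x = true) ∧ (y ∈ S ∧ ω y = true)) ↔
    (∑ i, |x i - y i| = 1 ∧ x ∈ S ∧ y ∈ S ∧ ∀ c ∈ (siteM d).nd x y, ω c = true)
  rw [nd_mem]
  tauto

open Pool.Agent.Y990.CB in
lemma graph_eq {d : ℕ} (ω : V d → Bool) (S : Set (V d)) :
    openGraph ω S = G (siteM d) ω S := by
  ext x y
  exact adj_iff ω S x y

open Pool.Agent.Y990.CB in
lemma cluster_sub {d : ℕ} (ω : V d → Bool) (S : Set (V d)) (x : V d) :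
    cluster ω S x ⊆ cl (siteM d) ω S x := by
  rintro y ⟨-, h⟩
  rw [graph_eq] at h
  exact h

open Pool.Agent.Y990.CB in
lemma infinite_iff {d : ℕ} (ω : V d → Bool) (x : V d) :
    (cluster ω univ x).Infinite ↔ ω ∈ Perc (siteM d) x := by
  constructor
  · intro h
    exact h.mono (cluster_sub ω univ x)
  · intro h
    have hx : ω x = true := by
      obtain ⟨y, hy, hyx⟩ := Set.Infinite.exists_notMem_finset h {x}
      have hyx' : y ≠ x := by simpa using hyx
      have hr : (G (siteM d) ω univ).Reachable x y := hy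
      obtain ⟨q⟩ := hr
      cases q with
      | nil => exact absurd rfl hyx'
      | cons hadj _ => exact (nd_mem.1 hadj.2.2.2).1
    refine Set.Infinite.mono ?_ h
    intro y hy
    refine ⟨⟨hx, mem_univ x⟩, ?_⟩
    rw [graph_eq]
    exact hy

open Pool.Agent.Y990.CB in
lemma P_eq (d : ℕ) (p : unitInterval) : P d p = mu (siteM d) p := rfl

open Pool.Agent.Y990.CB in
lemma theta_eq (d : ℕ) (p : unitInterval) : theta d p = th (siteM d) p := by
  unfold theta th
  rw [P_eq]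
  congr 1
  ext ω
  exact infinite_iff ω 0

open Pool.Agent.Y990.CB in
lemma pc_eq (d : ℕ) : pc d = Pool.Agent.Y990.CB.pc (siteM d) := by
  apply Subtype.ext
  show sSup {t : ℝ | ∃ q : unitInterval, (q : ℝ) = t ∧ theta d q = 0} =
    sSup {x : ℝ | ∃ q : unitInterval, (q : ℝ) = x ∧ th (siteM d) q = 0}
  simp only [theta_eq]

open Pool.Agent.Y990.CB Pool.Agent.D0H28.Neck in
lemma mem_box {d : ℕ} {x : V d} {n : ℕ} : x ∈ box (0 : V d) n ↔ nm x ≤ n := mem_Bo_zero

open Pool.Agent.Y990.CB Pool.Agent.D0H28.Neck in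
lemma narrow_sep {d : ℕ} {S : Set (V d)} {R m k n : ℕ} (h : Narrow S R m k n) :
    ∃ x : Fin m → V d, Sep S (Ub x k) n (R * n) := by
  obtain ⟨x, hx⟩ := h
  refine ⟨x, fun u v hu hv hr => hx u (mem_box.2 hu) v (fun hv' => ?_) hr⟩
  have := mem_box.1 hv'
  omega

/-- the condition on the exponent -/
lemma cond {e R : ℕ} (he : 1 ≤ e) {a C : ℝ} (ha : a < 1 / (2 * e)) (hC : 0 ≤ C) :
    ∀ᶠ n : ℕ in atTop, C * ((⌊(n : ℝ) ^ a⌋₊ : ℝ) + 1) ^ e * R ≤ √(n : ℝ) := by
  set b : ℝ := max a 0 with hb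
  have he0 : (0 : ℝ) < e := by exact_mod_cast he
  have hb0 : 0 ≤ b := le_max_right _ _
  have hbe : 0 < 1 / 2 - b * e := by
    have : b < 1 / (2 * e) := max_lt ha (by positivity)
    rw [lt_div_iff₀ (by positivity)] at this
    linarith
  have hlim : Tendsto (fun n : ℕ => (n : ℝ) ^ (1 / 2 - b * e)) atTop atTop :=
    (tendsto_rpow_atTop hbe).comp tendsto_natCast_atTop_atTop
  filter_upwards [hlim.eventually_ge_atTop (C * 2 ^ e * R), eventually_ge_atTop 1] with n h1 h2
  have hn : (1 : ℝ) ≤ n := by exact_mod_cast h2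
  have hn0 : (0 : ℝ) < n := by linarith
  have g1 : (⌊(n : ℝ) ^ a⌋₊ : ℝ) ≤ (n : ℝ) ^ b :=
    (Nat.floor_le (by positivity)).trans (Real.rpow_le_rpow_of_exponent_le hn (le_max_left _ _))
  have g2 : (1 : ℝ) ≤ (n : ℝ) ^ b := Real.one_le_rpow hn hb0
  have g3 : ((⌊(n : ℝ) ^ a⌋₊ : ℝ) + 1) ^ e ≤ 2 ^ e * (n : ℝ) ^ (b * e) := by
    calc ((⌊(n : ℝ) ^ a⌋₊ : ℝ) + 1) ^ e ≤ (2 * (n : ℝ) ^ b) ^ e := by
          apply pow_le_pow_left₀ (by positivity)
          linarith
      _ = 2 ^ e * (n : ℝ) ^ (b * e) := by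
          rw [mul_pow, Real.rpow_mul hn0.le, Real.rpow_natCast]
  calc C * ((⌊(n : ℝ) ^ a⌋₊ : ℝ) + 1) ^ e * R ≤ C * (2 ^ e * (n : ℝ) ^ (b * e)) * R := by
        gcongr
    _ = (C * 2 ^ e * R) * (n : ℝ) ^ (b * e) := by ring
    _ ≤ (n : ℝ) ^ (1 / 2 - b * e) * (n : ℝ) ^ (b * e) := by gcongr
    _ = √(n : ℝ) := by
        rw [← Real.rpow_add hn0, Real.sqrt_eq_rpow]
        congr 1
        ring

open Pool.Agent.Y990.CB Pool.Agent.D0H28.Neck in
lemma narrow_nar {d : ℕ} {S : Set (V d)} {R m k n e : ℕ} {C : ℝ}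
    (hk : C * ((k : ℝ) + 1) ^ e * R ≤ √(n : ℝ)) (h : Narrow S R m k n) : Nar C e R m S n := by
  obtain ⟨x, hx⟩ := narrow_sep h
  exact ⟨k, x, hk, hx⟩

/-- **Percolation through narrow passages at and below the critical point of `Z^d`.**  Let `d ≥ 2`
and let `S` be any region (set of vertices) of `Z^d`; clusters are open clusters inside `S`.

1. There is `C ≥ 1`, depending on `d` only, such that for all `p ≤ p_c`, all `R ≥ 1` and all scales
   `n_0, …, n_{2J-1}` with `16 R n_i ≤ n_{i+1}`: if `S` has at `n_i` a narrow passage covered by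
   `m_i` boxes of radius `k_i`, where `C (k_i + 1)^(2d²+3d) R ≤ √n_i`, then the probability that a
   cluster inside `S` meets the box of radius `n_0` and leaves the box of radius `R n_{2J-1}` is at
   most the product over `j < J` of `1 - (10^15 R)^(-m_{2j} m_{2j+1})`.
2. Let `a < 1 / (4 d² + 6 d)`.  If for infinitely many `n` the region `S` has at `n` a narrow
   passage covered by `m` boxes of radius `n^a`, then for every `p ≤ p_c` there is almost surely no
   infinite open cluster inside `S`.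
3. If this is so for all large `n`, then for all `p ≤ p_c` the probability that the cluster of the
   origin inside `S` leaves the box of radius `n` is at most `C n^(-c)`, where `c > 0` depends only
   on `d`, `R`, `m`, `a`. -/
theorem result (d : ℕ) (hd : 2 ≤ d) :
    (∃ C : ℝ, 1 ≤ C ∧ ∀ (R J : ℕ) (S : Set (V d)) (n k m : ℕ → ℕ) (p : unitInterval),
      1 ≤ R → p ≤ pc d →
      (∀ i < 2 * J, C * ((k i : ℝ) + 1) ^ (2 * d ^ 2 + 3 * d) * R ≤ √(n i : ℝ) ∧
        Narrow S R (m i) (k i) (n i)) →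
      (∀ i, i + 1 < 2 * J → 16 * R * n i ≤ n (i + 1)) →
      (P d p).real {ω | ∃ x ∈ box (0 : V d) (n 0),
          ¬ cluster ω S x ⊆ box 0 (R * n (2 * J - 1))} ≤
        ∏ j ∈ Finset.range J, (1 - (1 / (10 ^ 15 * (R : ℝ))) ^ (m (2 * j) * m (2 * j + 1)))) ∧
    (∀ (R m : ℕ) (a : ℝ), 1 ≤ R → a < 1 / (4 * d ^ 2 + 6 * d) → ∀ S : Set (V d),
      (∃ᶠ n : ℕ in atTop, Narrow S R m ⌊(n : ℝ) ^ a⌋₊ n) → ∀ p ≤ pc d,
        P d p {ω | ∃ x, (cluster ω S x).Infinite} = 0) ∧
    (∀ (R m : ℕ) (a : ℝ), 1 ≤ R → a < 1 / (4 * d ^ 2 + 6 * d) → ∃ c : ℝ, 0 < c ∧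
      ∀ S : Set (V d), (∀ᶠ n : ℕ in atTop, Narrow S R m ⌊(n : ℝ) ^ a⌋₊ n) →
        ∃ C : ℝ, ∀ p ≤ pc d, ∀ n : ℕ, 1 ≤ n →
          (P d p).real {ω | ¬ cluster ω S 0 ⊆ box 0 n} ≤ C * (n : ℝ) ^ (-c)) := by
  have hN : Pool.Agent.Y990.CB.Nd (Pool.Agent.Y990.CB.siteM d) := Pool.Agent.Y990.CB.nd_site
  have hQ : Pool.Agent.Y990.CB.Qm (Pool.Agent.Y990.CB.siteM d) := Pool.Agent.Y448.CB2.qm_site d
  obtain ⟨C, hC, hpair⟩ := Pool.Agent.D0H28.Neck.pair hd _ hN hQ
  have hpair' : Pool.Agent.D0H28.Neck.PairB (Pool.Agent.Y990.CB.siteM d) C (2 * d ^ 2 + 3 * d) :=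
    hpair
  have he : 1 ≤ 2 * d ^ 2 + 3 * d := by omega
  have hexp : ∀ a : ℝ, a < 1 / (4 * d ^ 2 + 6 * d) → a < 1 / (2 * ((2 * d ^ 2 + 3 * d : ℕ) : ℝ)) := by
    intro a ha
    push_cast
    have : (2 * (2 * (d : ℝ) ^ 2 + 3 * d)) = 4 * d ^ 2 + 6 * d := by ring
    rw [this]
    exact ha
  refine ⟨⟨C, by linarith, ?_⟩, ?_, ?_⟩
  · intro R J S n k m p hR hp h hn
    have hex : ∀ i, ∃ x : Fin (m i) → V d, i < 2 * J →
        Pool.Agent.D0H28.Neck.Sep S (Pool.Agent.D0H28.Neck.Ub x (k i)) (n i) (R * n i) := by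
      intro i
      by_cases hi : i < 2 * J
      · obtain ⟨x, hx⟩ := narrow_sep (h i hi).2
        exact ⟨x, fun _ => hx⟩
      · exact ⟨fun _ => 0, fun h => absurd h hi⟩
    choose x hx using hex
    have hmain := Pool.Agent.D0H28.Neck.seq hC he hpair' R J S n k m x p hR
      (by rw [← pc_eq]; exact hp) (fun i hi => (h i hi).1) hx hn
    refine le_trans ?_ hmain
    rw [P_eq]
    refine measureReal_mono ?_ (measure_ne_top _ _)
    rintro ω ⟨u, hu, hcl⟩
    rw [Set.not_subset] at hcl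
    obtain ⟨y, hy, hny⟩ := hcl
    refine ⟨u, mem_box.1 hu, y, cluster_sub ω S u hy, ?_⟩
    by_contra hcon
    exact hny (mem_box.2 (by omega))
  · intro R m a hR ha S hS p hp
    have hS' : ∃ᶠ n : ℕ in atTop, Pool.Agent.D0H28.Neck.Nar C (2 * d ^ 2 + 3 * d) R m S n := by
      refine (hS.and_eventually (cond (R := R) he (hexp a ha) (by linarith : (0 : ℝ) ≤ C))).mono ?_
      rintro n ⟨h1, h2⟩
      exact narrow_nar h2 h1
    have hmain := Pool.Agent.D0H28.Neck.inf hC he hpair' R m S p hR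
      (by rw [← pc_eq]; exact hp) hS'
    rw [P_eq]
    refine measure_mono_null ?_ hmain
    rintro ω ⟨x, hx⟩
    exact ⟨x, hx.mono (cluster_sub ω S x)⟩
  · intro R m a hR ha
    have hR1 : (1 : ℝ) ≤ R := by exact_mod_cast hR
    have hL : 0 < Real.log (16 * (R : ℝ)) := Real.log_pos (by nlinarith)
    refine ⟨(1 / (10 ^ 15 * (R : ℝ))) ^ (m * m) / (2 * Real.log (16 * R)), by positivity, ?_⟩
    intro S hS
    have hS' : ∀ᶠ n : ℕ in atTop, Pool.Agent.D0H28.Neck.Nar C (2 * d ^ 2 + 3 * d) R m S n := by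
      filter_upwards [hS, cond (R := R) he (hexp a ha) (by linarith : (0 : ℝ) ≤ C)] with n h1 h2
      exact narrow_nar h2 h1
    obtain ⟨n0, hn0⟩ := eventually_atTop.1 hS'
    refine ⟨Real.exp 1 * (R * (n0 + 1)) ^ ((1 / (10 ^ 15 * (R : ℝ))) ^ (m * m) /
      (2 * Real.log (16 * R))), fun p hp n hn => ?_⟩
    have hmain := Pool.Agent.D0H28.Neck.dec hC he hpair' R m n0 S p hR
      (by rw [← pc_eq]; exact hp) hn0 n hn
    refine le_trans ?_ hmain
    rw [P_eq]
    refine measureReal_mono ?_ (measure_ne_top _ _)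
    intro ω hcl
    have hcl' : ¬ cluster ω S 0 ⊆ box 0 n := hcl
    rw [Set.not_subset] at hcl'
    obtain ⟨y, hy, hny⟩ := hcl'
    refine ⟨y, cluster_sub ω S 0 hy, ?_⟩
    by_contra hcon
    exact hny (mem_box.2 (by omega))

end

end Pool.Agent.Results.MP_e13933_pr.NarrowPassages
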