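import Pool.Agent.D0H24.Perc.Site
import Pool.Agent.D0H24.Perc.WallNum

set_option autoImplicit false

open MeasureTheory Set Filter
open scoped Topology

/-!
Site percolation on `Z^d`, `d ≥ 3`: at the critical point the probability that the box of radius `n`
is not connected to the boundary of the box of radius `2 n` is not exponentially small in the
surface `n ^ (d - 1)`, but at least `exp (- C n ^ (d - 1 - a))`; the rate of the surface order decay
above the critical point (the surface tension) vanishes at least as fast as a power of `p - p_c`.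
-/

namespace Pool.Agent.Results.MP_e13933_pr.SubsurfaceDisconnection

open Pool.Agent.D0H24.Site

noncomputable section

/-- No open path in the box of radius `2 n` leads from the box of radius `n` to the boundary of the
box of radius `2 n`. -/
def disconnected (d n : ℕ) : Set (V d → Bool) :=
  {ω | ∀ x ∈ box d n, cluster ω (box d (2 * n)) x ∩ sphere d (2 * n) = ∅}

open Pool.Agent.Y990.CB in
lemma hol_le (d : ℕ) (p : unitInterval) (n : ℕ) :
    Pool.Agent.Y990.OA.hol (siteM d) p n (2 * n) ≤ (P d p).real (disconnected d n) := by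
  rw [P_eq]
  unfold Pool.Agent.Y990.OA.hol
  refine measureReal_mono ?_ (measure_ne_top _ _)
  intro ω hω x hx
  rw [Set.eq_empty_iff_forall_notMem]
  rintro y ⟨hy, hs⟩
  refine hω ⟨x, by rw [← box_eq]; exact hx, y, by rw [← sphere_eq]; exact hs, ?_⟩
  have := cluster_sub ω _ x hy
  rw [box_eq] at this
  exact this

/-- Comparison of the rates. -/
lemma rate {d n0 : ℕ} (hd : 3 ≤ d) {a C x K σ : ℝ} (ha : 0 < a)
    (h : ∀ n : ℕ, n0 ≤ n → Real.exp (-(C * (n : ℝ) ^ (d - 1) * ((n : ℝ) ^ (-a) + x))) ≤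
      K * Real.exp (-(σ * (n : ℝ) ^ (d - 1)))) : σ ≤ C * x := by
  by_contra hlt
  push Not at hlt
  set s : ℝ := σ - C * x with hs
  have hs0 : 0 < s := by rw [hs]; linarith
  have t1 : Tendsto (fun n : ℕ => C * (n : ℝ) ^ (-a)) atTop (𝓝 0) := by
    have := ((tendsto_rpow_neg_atTop ha).comp tendsto_natCast_atTop_atTop).const_mul C
    simpa using this
  have t2 : Tendsto (fun n : ℕ => Real.exp (s / 2 * n)) atTop atTop := by
    apply Real.tendsto_exp_atTop.comp
    exact Tendsto.const_mul_atTop (by linarith) tendsto_natCast_atTop_atTop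
  obtain ⟨n, hn0, hn1, g1, g2⟩ := ((eventually_ge_atTop n0).and ((eventually_ge_atTop 1).and
    ((t1.eventually (gt_mem_nhds (show (0 : ℝ) < s / 2 by linarith))).and
      (t2.eventually (eventually_gt_atTop K))))).exists
  have h1 := h n hn0
  have hnR : (1 : ℝ) ≤ n := by exact_mod_cast hn1
  set y : ℝ := (n : ℝ) ^ (d - 1) with hy
  have hy0 : 0 < y := by positivity
  have hny : (n : ℝ) ≤ y := le_self_pow₀ hnR (by omega)
  have h2 : Real.exp (s / 2 * y) ≤ K := by
    have e1 : 0 < Real.exp (-(σ * y)) := Real.exp_pos _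
    refine le_of_mul_le_mul_right ?_ e1
    refine le_trans ?_ h1
    rw [← Real.exp_add]
    apply Real.exp_le_exp.2
    have e2 : C * y * ((n : ℝ) ^ (-a) + x) = y * (C * (n : ℝ) ^ (-a)) + y * (C * x) := by ring
    rw [e2]
    have e3 : y * (C * (n : ℝ) ^ (-a)) ≤ y * (s / 2) := mul_le_mul_of_nonneg_left g1.le hy0.le
    have e4 : σ = s + C * x := by rw [hs]; ring
    rw [e4]
    nlinarith
  have h3 : Real.exp (s / 2 * n) ≤ Real.exp (s / 2 * y) :=
    Real.exp_le_exp.2 (mul_le_mul_of_nonneg_left hny (by linarith))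
  linarith

/-- **Disconnection of boxes at and slightly above the critical point.**  For every `d ≥ 3` there
are `n0`, `a > 0`, `C > 0` and `δ > 0` such that for all `p` in `[p_c, p_c + δ]`:

* for all `n ≥ n0` the `P_p`-probability that the box of radius `n` is not connected to the boundary
  of the box of radius `2 n` is at least `exp (- C n ^ (d - 1) (n ^ (- a) + (p - p_c) ^ a))`; for
  `p = p_c` this is `exp (- C n ^ (d - 1 - a))`;
* hence, if this probability is at most `K exp (- σ n ^ (d - 1))` for all large `n` and some `K`,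
  then `σ ≤ C (p - p_c) ^ a`. -/
theorem result (d : ℕ) (hd : 3 ≤ d) : ∃ (n0 : ℕ) (a C δ : ℝ), 0 < a ∧ 0 < C ∧ 0 < δ ∧
    ∀ p : unitInterval, pc d ≤ p → (p : ℝ) - pc d ≤ δ →
      (∀ n : ℕ, n0 ≤ n →
        Real.exp (-(C * (n : ℝ) ^ (d - 1) * ((n : ℝ) ^ (-a) + ((p : ℝ) - pc d) ^ a))) ≤
          (P d p).real (disconnected d n)) ∧
      ∀ σ K : ℝ, (∀ᶠ n : ℕ in atTop,
          (P d p).real (disconnected d n) ≤ K * Real.exp (-(σ * (n : ℝ) ^ (d - 1)))) →
        σ ≤ C * ((p : ℝ) - pc d) ^ a := by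
  have hN : Pool.Agent.Y990.CB.Nd (Pool.Agent.Y990.CB.siteM d) := Pool.Agent.Y990.CB.nd_site
  have hQ : Pool.Agent.Y990.CB.Qm (Pool.Agent.Y990.CB.siteM d) := Pool.Agent.Y448.CB2.qm_site d
  obtain ⟨n0, a, C, δ, ha, hC, hδ, h⟩ :=
    Pool.Agent.D0H24.Perc.disc hd (Pool.Agent.Y990.CB.siteM d) hN hQ
  refine ⟨n0, a, C, δ, ha, hC, hδ, fun p hp hpδ => ?_⟩
  have h1 : ∀ n : ℕ, n0 ≤ n →
        Real.exp (-(C * (n : ℝ) ^ (d - 1) * ((n : ℝ) ^ (-a) + ((p : ℝ) - pc d) ^ a))) ≤
          (P d p).real (disconnected d n) := by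
    intro n hn
    rw [pc_eq] at hp hpδ ⊢
    exact (h p hp hpδ n hn).trans (hol_le d p n)
  refine ⟨h1, fun σ K hK => ?_⟩
  obtain ⟨n1, hn1⟩ := eventually_atTop.1 hK
  exact rate (n0 := max n0 n1) hd ha (K := K) (fun n hn =>
    (h1 n (le_trans (le_max_left _ _) hn)).trans (hn1 n (le_trans (le_max_right _ _) hn)))

end

end Pool.Agent.Results.MP_e13933_pr.SubsurfaceDisconnection
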